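import Pool.Agent.H49.TRN.S1

/-!
# TRO: ternary forms, odd savings (statements)
-/

set_option autoImplicit false

namespace Pool.TRO

open MvPolynomial Pool.FOS Pool.TRN

/-! ### the regions -/

/-- The corner with seven points: a trapezoid of height `2 d` and base `11 d / 4`. -/
def Cor (c d : ℕ) : Finset (ℕ × ℕ) :=
  (box (c + 3 * d + 1)).filter fun a => c ≤ a.1 ∧ 4 * (a.1 + a.2) ≤ 4 * c + 11 * d ∧ a.2 ≤ 2 * d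

/-- First piece of the corner. -/
def T1 (c d : ℕ) : Finset (ℕ × ℕ) := (Cor c d).filter fun a => a.1 + a.2 ≤ c + d

/-- Second piece of the corner. -/
def T2 (c d : ℕ) : Finset (ℕ × ℕ) :=
  (Cor c d).filter fun a => c + d < a.1 + a.2 ∧ 2 * a.1 + a.2 ≤ 2 * c + 2 * d

/-- Third piece of the corner. -/
def T3 (c d : ℕ) : Finset (ℕ × ℕ) :=
  (Cor c d).filter fun a => 2 * c + 2 * d < 2 * a.1 + a.2 ∧ 4 * a.1 + a.2 ≤ 4 * c + 4 * d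

/-- Fourth piece of the corner. -/
def T4 (c d : ℕ) : Finset (ℕ × ℕ) := (Cor c d).filter fun a => 4 * c + 7 * d ≤ 4 * a.1

/-- Fifth piece of the corner. -/
def T5 (c d : ℕ) : Finset (ℕ × ℕ) :=
  (Cor c d).filter fun a => 4 * c + 4 * d < 4 * a.1 + a.2 ∧ 4 * a.1 < 4 * c + 7 * d ∧
    4 * a.1 + 9 * d < 4 * c + 12 * a.2

/-- Sixth piece of the corner. -/
def T6 (c d : ℕ) : Finset (ℕ × ℕ) :=
  (Cor c d).filter fun a => 4 * c + 4 * d < 4 * a.1 + a.2 ∧ 4 * a.1 < 4 * c + 7 * d ∧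
    4 * c + 12 * a.2 ≤ 4 * a.1 + 9 * d ∧ 12 * a.1 + 16 * a.2 ≤ 12 * c + 25 * d

/-- Seventh piece of the corner. -/
def T7 (c d : ℕ) : Finset (ℕ × ℕ) :=
  (Cor c d).filter fun a => 4 * c + 4 * d < 4 * a.1 + a.2 ∧ 4 * a.1 < 4 * c + 7 * d ∧
    4 * c + 12 * a.2 ≤ 4 * a.1 + 9 * d ∧ 12 * c + 25 * d < 12 * a.1 + 16 * a.2

/-- The second layer, up to the column `c`. -/
def Lw (d g h c : ℕ) : Finset (ℕ × ℕ) :=
  (Finset.range c ×ˢ Finset.range (g + h)).filter fun a =>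
    g ≤ a.2 ∧ a.1 + (d + 2) * a.2 < (d + 2) * (g + h)

/-! ### general lemmas -/

/-- CTZ: the region may be cut by a line, integer coefficients. -/
def CTZStmt : Prop :=
  ∀ (m s₁ s₂ : ℕ) (v₁ v₂ : ℤ) (D₁ D₂ : Finset (ℕ × ℕ)),
    (∀ a ∈ D₁, ∀ b ∈ D₂, v₁ * (a.1 : ℤ) + v₂ * (a.2 : ℤ) < v₁ * (b.1 : ℤ) + v₂ * (b.2 : ℤ)) →
    Cov m s₁ D₁ → Cov m s₂ D₂ → Cov m (s₁ + s₂) (D₁ ∪ D₂)

/-- SWP: exchange of the coordinates. -/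
def SWPStmt : Prop :=
  ∀ (m s : ℕ) (D : Finset (ℕ × ℕ)), Cov m s (D.image Prod.swap) → Cov m s D

/-- KIA: one point suffices if for all `u ≥ 1` the rows `p x + y = const` with two points at
distance at least `u - 1` are among `m + 1 - u` consecutive ones. -/
def KIAStmt : Prop :=
  ∀ (m p : ℕ) (D : Finset (ℕ × ℕ)),
    (∀ u : ℕ, 1 ≤ u → ∃ α : ℤ, ∀ a ∈ D, ∀ b ∈ D, p * a.1 + a.2 = p * b.1 + b.2 →
      a.1 + u ≤ b.1 + 1 → α ≤ (p : ℤ) * a.1 + a.2 ∧ (p : ℤ) * a.1 + a.2 + u ≤ α + m) →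
    Cov m 1 D

/-- KIB: the same with the columns `x = const`. -/
def KIBStmt : Prop :=
  ∀ (m : ℕ) (D : Finset (ℕ × ℕ)),
    (∀ u : ℕ, 1 ≤ u → ∃ α : ℤ, ∀ a ∈ D, ∀ b ∈ D, a.1 = b.1 →
      a.2 + u ≤ b.2 + 1 → α ≤ (a.1 : ℤ) ∧ (a.1 : ℤ) + u ≤ α + m) →
    Cov m 1 D

/-! ### the corner -/

/-- COA: the first three pieces. -/
def COAStmt : Prop :=
  ∀ c d : ℕ, Cov (d + 1) 1 (T1 c d) ∧ Cov (d + 1) 1 (T2 c d) ∧ Cov (d + 1) 1 (T3 c d)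

/-- COB: the next two pieces. -/
def COBStmt : Prop := ∀ c d : ℕ, Cov (d + 1) 1 (T4 c d) ∧ Cov (d + 1) 1 (T5 c d)

/-- COC: the last two pieces. -/
def COCStmt : Prop := ∀ c d : ℕ, Cov (d + 1) 1 (T6 c d) ∧ Cov (d + 1) 1 (T7 c d)

/-- COR: the corner. -/
def CORStmt : Prop := ∀ c d : ℕ, Cov (d + 1) 7 (Cor c d)

/-! ### the two layers -/

/-- RCT: the first layer. -/
def RCTStmt : Prop :=
  ∀ d i P c h : ℕ, h + i ≤ d + 1 → c ≤ P * (d + 2 + i) →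
    Cov (d + 1) (2 * P) (Finset.range c ×ˢ Finset.range h)

/-- LWR: the second layer. -/
def LWRStmt : Prop :=
  ∀ d g h c P : ℕ, h ≤ d + 1 → c ≤ aa d (d + 1 - h) P → Cov (d + 1) (2 * P) (Lw d g h c)

/-- TRO: the triangle. -/
def TROStmt : Prop :=
  ∀ d h₁ h₂ i D J c P₁ P₂ : ℕ, h₁ + i ≤ d + 1 → h₂ ≤ d + 1 → h₁ + h₂ ≤ 2 * d + 1 →
    D + 1 = h₁ + h₂ + J * (d + 1) → 4 * D ≤ 4 * c + 11 * d → c ≤ P₁ * (d + 2 + i) →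
    c ≤ aa d (d + 1 - h₂) P₂ → Cov (d + 1) (J ^ 2 + 2 * P₁ + 2 * P₂ + 7) (Tri D)

/-! ### numbers and the result -/

/-- NMC: the numbers for `k ^ 2 - (2 u + 1)`. -/
def NMCStmt : Prop :=
  ∀ k d u : ℕ, 4 ≤ k → k ≤ d + 2 → u ≤ k - 3 →
    (2 * u + 1) * d ≤ (k - 3 - u) * (3 * k - u - 1) →
    ∃ i h₁ h₂ c : ℕ, h₁ + i ≤ d + 1 ∧ h₂ ≤ d + 1 ∧ h₁ + h₂ ≤ 2 * d + 1 ∧
      k * d + 1 = h₁ + h₂ + (k - 2) * (d + 1) ∧ 4 * (k * d) ≤ 4 * c + 11 * d ∧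
      c ≤ (k - 3) * (d + 2 + i) ∧ c ≤ aa d (d + 1 - h₂) (k - 3 - u) ∧
      (k - 2) ^ 2 + 2 * (k - 3) + 2 * (k - 3 - u) + 7 = k ^ 2 - (2 * u + 1)

/-- NMD: for large `d` one of the two bounds is at most the conjectured value plus one. -/
def NMDStmt : Prop :=
  ∀ k d s : ℕ, 2 ≤ k → 7 * k ^ 3 ≤ d ^ 2 →
    (k * d + 1) * (k * d + 2) ≤ s * ((d + 1) * (d + 2)) →
    (∃ q, q < k ∧ 2 * q * d ≤ (k - 1 - q) * (3 * k - q) ∧ k ^ 2 - 2 * q ≤ s + 1) ∨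
    (∃ u, 4 ≤ k ∧ u ≤ k - 3 ∧ (2 * u + 1) * d ≤ (k - 3 - u) * (3 * k - u - 1) ∧
      k ^ 2 - (2 * u + 1) ≤ s + 1)

/-- ROD: odd savings. -/
def RODStmt : Prop :=
  ∀ k d u : ℕ, 4 ≤ k → 1 ≤ d → k ≤ d + 2 → u ≤ k - 3 →
    (2 * u + 1) * d ≤ (k - 3 - u) * (3 * k - u - 1) → GenLe 3 k d (k ^ 2 - (2 * u + 1))

/-- RON: the conjectured value plus one. -/
def RONStmt : Prop :=
  ∀ k d s : ℕ, 2 ≤ k → 1 ≤ d → 7 * k ^ 3 ≤ d ^ 2 →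
    (k * d + 1) * (k * d + 2) ≤ s * ((d + 1) * (d + 2)) → GenLe 3 k d (s + 1)

end Pool.TRO
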