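import Pool.Agent.H49.TRN.CUT
import Pool.Agent.H49.TRO.S1

/-!
# TRO: cutting a region by a line with integer coefficients
-/

set_option autoImplicit false

namespace Pool.TRO

open MvPolynomial Pool.FOS Pool.TRN Pool.TRN.CutAux

theorem t_ctz : CTZStmt := by
  classical
  intro m s₁ s₂ v₁ v₂ D₁ D₂ hv ⟨P, hP⟩ ⟨Q, hQ⟩
  have hdis : Disjoint D₁ D₂ := by
    rw [Finset.disjoint_left]
    intro a h1 h2
    exact lt_irrefl _ (hv a h1 a h2)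
  obtain ⟨C₁, hC₁, k₁⟩ := key m s₁ P D₁ D₂ hdis hP
  obtain ⟨C₂, hC₂, k₂⟩ := key m s₂ Q D₂ D₁ hdis.symm hQ
  obtain ⟨μ, hμ, hμ2⟩ : ∃ μ : ℤ, (∀ a ∈ D₁, v₁ * (a.1 : ℤ) + v₂ * (a.2 : ℤ) ≤ μ) ∧
      ∀ b ∈ D₂, μ + 1 ≤ v₁ * (b.1 : ℤ) + v₂ * (b.2 : ℤ) := by
    rcases D₁.eq_empty_or_nonempty with he | hne
    · rcases D₂.eq_empty_or_nonempty with he2 | hne2
      · exact ⟨0, by simp [he], by simp [he2]⟩
      · obtain ⟨b₀, hb₀, hmin⟩ := D₂.exists_min_image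
          (fun b => v₁ * (b.1 : ℤ) + v₂ * (b.2 : ℤ)) hne2
        refine ⟨v₁ * (b₀.1 : ℤ) + v₂ * (b₀.2 : ℤ) - 1, by simp [he], fun b hb => ?_⟩
        have := hmin b hb
        linarith
    · obtain ⟨a₀, ha₀, hmax⟩ := D₁.exists_max_image
        (fun b => v₁ * (b.1 : ℤ) + v₂ * (b.2 : ℤ)) hne
      refine ⟨v₁ * (a₀.1 : ℤ) + v₂ * (a₀.2 : ℤ), fun a ha => hmax a ha, fun b hb => ?_⟩
      have := hv a₀ ha₀ b hb
      linarith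
  obtain ⟨n₁, hn1d⟩ : ∃ n₁ : ℝ, n₁ = D₁.card := ⟨_, rfl⟩
  obtain ⟨n₂, hn2d⟩ : ∃ n₂ : ℝ, n₂ = D₂.card := ⟨_, rfl⟩
  have hn₁ : 0 ≤ n₁ := by rw [hn1d]; exact Nat.cast_nonneg _
  have hn₂ : 0 ≤ n₂ := by rw [hn2d]; exact Nat.cast_nonneg _
  obtain ⟨t, htd⟩ : ∃ t : ℝ, t = n₁ * C₁ * (n₂ * C₂) + 1 := ⟨_, rfl⟩
  have ht1 : 1 ≤ t := by
    have : 0 ≤ n₁ * C₁ * (n₂ * C₂) := by positivity
    rw [htd]; linarith
  have ht0 : 0 < t := by linarith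
  refine ⟨Fin.append P (fun j => ((t : ℂ) ^ v₁ * (Q j).1, (t : ℂ) ^ v₂ * (Q j).2)), ?_⟩
  intro c hc
  have h1 : ∀ (i : Fin s₁) (q : MvPolynomial (Fin 2) ℂ), q.totalDegree < m →
      ∑ a ∈ D₁ ∪ D₂, c a * ev a q * ((P i).1 ^ a.1 * (P i).2 ^ a.2) = 0 := by
    intro i q hq
    have := hc (Fin.castAdd s₂ i) q hq
    simpa only [Fin.append_left] using this
  obtain ⟨w, hwd⟩ : ∃ w : ℕ × ℕ → ℂ, ∀ a : ℕ × ℕ,
      w a = c a * (t : ℂ) ^ (v₁ * (a.1 : ℤ) + v₂ * (a.2 : ℤ)) :=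
    ⟨_, fun _ => rfl⟩
  have h2 : ∀ (i : Fin s₂) (q : MvPolynomial (Fin 2) ℂ), q.totalDegree < m →
      ∑ a ∈ D₂ ∪ D₁, w a * ev a q * ((Q i).1 ^ a.1 * (Q i).2 ^ a.2) = 0 := by
    intro i q hq
    have := hc (Fin.natAdd s₁ i) q hq
    simp only [Fin.append_right] at this
    rw [Finset.union_comm, ← this]
    refine Finset.sum_congr rfl fun a _ => ?_
    have ht' : (t : ℂ) ≠ 0 := by exact_mod_cast ht0.ne'
    rw [hwd, mul_pow, mul_pow, zpow_add₀ ht', zpow_mul, zpow_mul, zpow_natCast, zpow_natCast]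
    ring
  obtain ⟨N₁, hN1d⟩ : ∃ N₁ : ℝ, N₁ = ∑ a ∈ D₁, ‖c a‖ := ⟨_, rfl⟩
  obtain ⟨N₂, hN2d⟩ : ∃ N₂ : ℝ, N₂ = ∑ a ∈ D₂, ‖c a‖ := ⟨_, rfl⟩
  have hN₁ : 0 ≤ N₁ := by rw [hN1d]; exact Finset.sum_nonneg fun a _ => norm_nonneg _
  have hN₂ : 0 ≤ N₂ := by rw [hN2d]; exact Finset.sum_nonneg fun a _ => norm_nonneg _
  have b1 : ∀ a ∈ D₁, ‖c a‖ ≤ N₁ := fun a ha => by
    rw [hN1d]
    exact Finset.single_le_sum (f := fun a => ‖c a‖) (fun a _ => norm_nonneg _) ha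
  have b2 : ∀ a ∈ D₂, ‖c a‖ ≤ N₂ := fun a ha => by
    rw [hN2d]
    exact Finset.single_le_sum (f := fun a => ‖c a‖) (fun a _ => norm_nonneg _) ha
  have g1 : ∀ a ∈ D₁, ‖c a‖ ≤ C₁ * N₂ := k₁ c h1 N₂ hN₂ b2
  have hnt : ‖(t : ℂ)‖ = t := by
    rw [Complex.norm_real, Real.norm_of_nonneg ht0.le]
  have wn : ∀ a : ℕ × ℕ, ‖w a‖ = ‖c a‖ * t ^ (v₁ * (a.1 : ℤ) + v₂ * (a.2 : ℤ)) := by
    intro a
    rw [hwd, norm_mul, norm_zpow, hnt]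
  have g2 : ∀ b ∈ D₂, ‖w b‖ ≤ C₂ * (N₁ * t ^ μ) := by
    refine k₂ w h2 (N₁ * t ^ μ) (by positivity) fun a ha => ?_
    rw [wn]
    exact mul_le_mul (b1 a ha) (zpow_le_zpow_right₀ ht1 (hμ a ha)) (by positivity) hN₁
  have g3 : ∀ b ∈ D₂, ‖c b‖ * t ≤ C₂ * N₁ := by
    intro b hb
    have hle := hμ2 b hb
    have h3 := g2 b hb
    rw [wn] at h3
    have h4 : ‖c b‖ * t ^ (μ + 1) ≤ ‖c b‖ * t ^ (v₁ * (b.1 : ℤ) + v₂ * (b.2 : ℤ)) :=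
      mul_le_mul_of_nonneg_left (zpow_le_zpow_right₀ ht1 hle) (norm_nonneg _)
    have h6 : t ^ (μ + 1) = t ^ μ * t := zpow_add_one₀ ht0.ne' μ
    have h5 : (‖c b‖ * t) * t ^ μ ≤ (C₂ * N₁) * t ^ μ := by
      calc (‖c b‖ * t) * t ^ μ = ‖c b‖ * t ^ (μ + 1) := by rw [h6]; ring
        _ ≤ C₂ * (N₁ * t ^ μ) := h4.trans h3
        _ = (C₂ * N₁) * t ^ μ := by ring
    exact le_of_mul_le_mul_right h5 (by positivity)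
  have s1 : N₁ ≤ n₁ * (C₁ * N₂) := by
    have := Finset.sum_le_sum g1
    rw [Finset.sum_const, nsmul_eq_mul, ← hN1d, ← hn1d] at this
    exact this
  have s2 : N₂ * t ≤ n₂ * (C₂ * N₁) := by
    have h3 : N₂ * t = ∑ b ∈ D₂, ‖c b‖ * t := by rw [hN2d, Finset.sum_mul]
    have := Finset.sum_le_sum g3
    rw [Finset.sum_const, nsmul_eq_mul, ← h3, ← hn2d] at this
    exact this
  have s3 : N₂ = 0 := by
    have h3 : N₂ * t ≤ (n₁ * C₁ * (n₂ * C₂)) * N₂ := by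
      calc N₂ * t ≤ n₂ * (C₂ * N₁) := s2
        _ ≤ n₂ * (C₂ * (n₁ * (C₁ * N₂))) := by gcongr
        _ = (n₁ * C₁ * (n₂ * C₂)) * N₂ := by ring
    have h4 : N₂ * t = (n₁ * C₁ * (n₂ * C₂)) * N₂ + N₂ := by
      rw [htd]; ring
    linarith
  have s4 : N₁ = 0 := by
    have : N₁ ≤ 0 := by rw [s3] at s1; simpa using s1
    linarith
  intro a ha
  rw [Finset.mem_union] at ha
  have : ‖c a‖ ≤ 0 := by
    rcases ha with ha | ha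
    · exact (b1 a ha).trans s4.le
    · exact (b2 a ha).trans s3.le
  exact norm_le_zero_iff.1 this

end Pool.TRO
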