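import Pool.Agent.H49.TRO.S1

/-!
# TRO: the exceptional set
-/

set_option autoImplicit false

namespace Pool.TRO

open Pool.FOS Pool.TRN

/-- The conjectured value of the generic `k`-rank of ternary forms of degree `k * d`. -/
def cv (k d : ℕ) : ℕ := ((k * d + 1) * (k * d + 2) + ((d + 1) * (d + 2) - 1)) / ((d + 1) * (d + 2))

/-- The numerical condition for `k ^ 2 - j`. -/
def Cnd (k d j : ℕ) : Prop :=
  (∃ q, j = 2 * q ∧ q < k ∧ 2 * q * d ≤ (k - 1 - q) * (3 * k - q)) ∨
    (∃ u, j = 2 * u + 1 ∧ 4 ≤ k ∧ u ≤ k - 3 ∧ (2 * u + 1) * d ≤ (k - 3 - u) * (3 * k - u - 1))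

theorem cv_ge (k d : ℕ) : (k * d + 1) * (k * d + 2) ≤ cv k d * ((d + 1) * (d + 2)) := by
  have hM : 0 < (d + 1) * (d + 2) := by positivity
  obtain ⟨M, hMd⟩ : ∃ M, M = (d + 1) * (d + 2) := ⟨_, rfl⟩
  obtain ⟨T, hT⟩ : ∃ T, T = (k * d + 1) * (k * d + 2) := ⟨_, rfl⟩
  rw [cv, ← hMd, ← hT]
  rw [← hMd] at hM
  have h1 := Nat.div_add_mod (T + (M - 1)) M
  have h2 := Nat.mod_lt (T + (M - 1)) hM
  have h3 : M * ((T + (M - 1)) / M) = (T + (M - 1)) / M * M := mul_comm _ _
  omega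

theorem cv_lt (k d : ℕ) : (cv k d - 1) * ((d + 1) * (d + 2)) < (k * d + 1) * (k * d + 2) := by
  have hM : 0 < (d + 1) * (d + 2) := by positivity
  have hT0 : 0 < (k * d + 1) * (k * d + 2) := by positivity
  obtain ⟨M, hMd⟩ : ∃ M, M = (d + 1) * (d + 2) := ⟨_, rfl⟩
  obtain ⟨T, hT⟩ : ∃ T, T = (k * d + 1) * (k * d + 2) := ⟨_, rfl⟩
  rw [cv, ← hMd, ← hT]
  rw [← hMd] at hM
  rw [← hT] at hT0
  have h1 : (T + (M - 1)) / M * M ≤ T + (M - 1) := Nat.div_mul_le_self _ _
  rw [Nat.sub_mul, one_mul]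
  omega

theorem cv_pos (k d : ℕ) : 1 ≤ cv k d := by
  by_contra h
  have h0 : cv k d = 0 := by omega
  have := cv_ge k d
  rw [h0, zero_mul] at this
  have : 0 < (k * d + 1) * (k * d + 2) := by positivity
  omega

theorem cv_le (k d : ℕ) (hk : 1 ≤ k) : cv k d ≤ k ^ 2 := by
  by_contra h
  push Not at h
  have h1 := cv_lt k d
  have h2 : k ^ 2 ≤ cv k d - 1 := by omega
  have h3 : k ^ 2 * ((d + 1) * (d + 2)) < (k * d + 1) * (k * d + 2) :=
    lt_of_le_of_lt (Nat.mul_le_mul_right _ h2) h1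
  nlinarith [Nat.zero_le (k * d), Nat.mul_le_mul hk hk, Nat.mul_le_mul_right (k * d) hk]

/-- The bound for `j = k ^ 2 - cv k d`. -/
theorem cv_j (k d : ℕ) (hk : 1 ≤ k) :
    (k ^ 2 - cv k d) * ((d + 1) * (d + 2)) + 3 * k * d + 2 ≤ 3 * k ^ 2 * d + 2 * k ^ 2 := by
  have h1 := cv_ge k d
  have h2 := cv_le k d hk
  obtain ⟨j, hj⟩ := Nat.exists_eq_add_of_le h2
  rw [hj, Nat.add_sub_cancel_left]
  have h3 : (cv k d + j) * ((d + 1) * (d + 2)) = k ^ 2 * ((d + 1) * (d + 2)) := by rw [hj]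
  nlinarith

theorem nme (k : ℕ) (hk : 3 ≤ k) : ∃ E : Finset ℕ, E.card ^ 2 ≤ 144 * k ^ 3 ∧
    ∀ d, 1 ≤ d → d ∉ E → k ≤ d + 2 ∧ Cnd k d (k ^ 2 - cv k d) := by
  rcases Nat.lt_or_ge k 4 with h4 | h4
  · obtain rfl : k = 3 := by omega
    refine ⟨Finset.range 16, by simp, fun d hd hdE => ⟨?_, ?_⟩⟩
    · simp only [Finset.mem_range, not_lt] at hdE; omega
    · simp only [Finset.mem_range, not_lt] at hdE
      have h1 := cv_le 3 d (by norm_num)
      have h2 : 9 ≤ cv 3 d := by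
        by_contra h
        push Not at h
        have h3 := cv_ge 3 d
        have h5 : cv 3 d * ((d + 1) * (d + 2)) ≤ 8 * ((d + 1) * (d + 2)) :=
          Nat.mul_le_mul_right _ (by omega)
        nlinarith
      have h3 : 3 ^ 2 - cv 3 d = 0 := by omega
      rw [h3]
      exact Or.inl ⟨0, rfl, by norm_num, by simp⟩
  · -- the main case
    obtain ⟨A, hA⟩ : ∃ A, A = Nat.sqrt (9 * k ^ 3) + 1 := ⟨_, rfl⟩
    obtain ⟨J, hJ⟩ : ∃ J, J = Nat.sqrt k := ⟨_, rfl⟩
    have hA1 : 9 * k ^ 3 < A ^ 2 := by rw [hA, pow_two]; exact Nat.lt_succ_sqrt _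
    have hA2 : (A - 1) ^ 2 ≤ 9 * k ^ 3 := by
      rw [hA, Nat.add_sub_cancel, pow_two]; exact Nat.sqrt_le _
    have hJ1 : J ^ 2 ≤ k := by rw [hJ, pow_two]; exact Nat.sqrt_le _
    have hJ2 : k < (J + 1) ^ 2 := by rw [hJ, pow_two]; exact Nat.lt_succ_sqrt _
    have hk3 : 64 ≤ k ^ 3 := by
      calc 64 = 4 ^ 3 := by norm_num
        _ ≤ k ^ 3 := Nat.pow_le_pow_left h4 3
    have hkA : 2 * k ≤ A := by
      by_contra h
      push Not at h
      have h1 : A ^ 2 ≤ (2 * k) ^ 2 := Nat.pow_le_pow_left h.le 2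
      have h2 : 4 * k ^ 2 ≤ k ^ 3 := by
        calc 4 * k ^ 2 ≤ k * k ^ 2 := Nat.mul_le_mul_right _ h4
          _ = k ^ 3 := by ring
      nlinarith
    -- the lower ends of the intervals
    obtain ⟨X, hX⟩ : ∃ X : ℕ → ℕ, ∀ j, X j = (3 * k ^ 2 - (8 * k + 2 * k * j)) / j :=
      ⟨_, fun _ => rfl⟩
    refine ⟨Finset.range A ∪
      (Finset.Icc 1 J).biUnion fun j => Finset.Icc (X j) (X j + 8 * k), ?_, ?_⟩
    · -- the number of elements
      have c1 : (Finset.range A ∪
          (Finset.Icc 1 J).biUnion fun j => Finset.Icc (X j) (X j + 8 * k)).card ≤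
          A + J * (8 * k + 1) := by
        refine (Finset.card_union_le _ _).trans (add_le_add (by simp) ?_)
        refine Finset.card_biUnion_le.trans ?_
        have : ∀ j ∈ Finset.Icc 1 J, (Finset.Icc (X j) (X j + 8 * k)).card ≤ 8 * k + 1 := by
          intro j _
          rw [Nat.card_Icc]
          omega
        refine (Finset.sum_le_sum this).trans ?_
        rw [Finset.sum_const, Nat.card_Icc, smul_eq_mul, Nat.add_sub_cancel]
      refine le_trans (Nat.pow_le_pow_left c1 2) ?_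
      -- in the reals
      obtain ⟨r, hr⟩ : ∃ r : ℝ, r = Real.sqrt k := ⟨_, rfl⟩
      have hr0 : 0 ≤ r := by rw [hr]; exact Real.sqrt_nonneg _
      have hr2 : r ^ 2 = k := by rw [hr]; exact Real.sq_sqrt (Nat.cast_nonneg k)
      have hr3 : 2 ≤ r := by
        have : (4 : ℝ) ≤ k := by exact_mod_cast h4
        nlinarith
      have hAr : (A : ℝ) ≤ 3 * r ^ 3 + 1 := by
        have h1 : ((A - 1 : ℕ) : ℝ) ^ 2 ≤ 9 * (k : ℝ) ^ 3 := by exact_mod_cast hA2
        have h2 : ((A - 1 : ℕ) : ℝ) = A - 1 := by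
          rw [Nat.cast_sub (by omega)]; simp
        rw [h2, ← hr2] at h1
        have h3 : ((A : ℝ) - 1) ^ 2 ≤ (3 * r ^ 3) ^ 2 := by
          calc ((A : ℝ) - 1) ^ 2 ≤ 9 * (r ^ 2) ^ 3 := h1
            _ = (3 * r ^ 3) ^ 2 := by ring
        have h4 := abs_le_of_sq_le_sq h3 (by positivity)
        linarith [le_of_abs_le h4]
      have hJr : (J : ℝ) ≤ r := by
        have h1 : (J : ℝ) ^ 2 ≤ r ^ 2 := by rw [hr2]; exact_mod_cast hJ1
        have h4 := abs_le_of_sq_le_sq h1 hr0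
        exact le_of_abs_le h4
      have h5 : (A : ℝ) + J * (8 * k + 1) ≤ 12 * r ^ 3 := by
        have h6 : (J : ℝ) * (8 * k + 1) ≤ r * (8 * r ^ 2 + 1) := by
          rw [← hr2]
          exact mul_le_mul_of_nonneg_right hJr (by positivity)
        nlinarith [mul_nonneg hr0 (sub_nonneg.2 hr3), mul_nonneg (sub_nonneg.2 hr3)
          (mul_nonneg hr0 (sub_nonneg.2 hr3))]
      have h7 : ((A : ℝ) + J * (8 * k + 1)) ^ 2 ≤ 144 * (k : ℝ) ^ 3 := by
        calc ((A : ℝ) + J * (8 * k + 1)) ^ 2 ≤ (12 * r ^ 3) ^ 2 :=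
              pow_le_pow_left₀ (by positivity) h5 2
          _ = 144 * (r ^ 2) ^ 3 := by ring
          _ = 144 * (k : ℝ) ^ 3 := by rw [hr2]
      exact_mod_cast h7
    · intro d hd hdE
      simp only [Finset.mem_union, Finset.mem_range, Finset.mem_biUnion, Finset.mem_Icc,
        not_or, not_lt, not_exists, not_and, not_le] at hdE
      obtain ⟨hdA, hdI⟩ := hdE
      refine ⟨by omega, ?_⟩
      obtain ⟨j, hj⟩ : ∃ j, j = k ^ 2 - cv k d := ⟨_, rfl⟩
      rw [← hj]
      rcases Nat.eq_zero_or_pos j with h0 | h0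
      · rw [h0]
        exact Or.inl ⟨0, rfl, by omega, by simp⟩
      by_contra hC
      have hcj := cv_j k d (by omega)
      rw [← hj] at hcj
      -- upper bound
      have hu : j * d + 2 * k ≤ 3 * k ^ 2 := by
        by_contra h
        push Not at h
        have h1 : (3 * k ^ 2 + 1) * d ≤ (j * d + 2 * k) * d := Nat.mul_le_mul_right _ h
        have h2 : 2 * k * k ≤ d * k := Nat.mul_le_mul_right _ (by omega)
        nlinarith [Nat.zero_le (j * d), Nat.zero_le j]
      -- lower bound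
      have hJ3 : j ≤ J := by
        by_contra h
        push Not at h
        have h1 : k < j ^ 2 := lt_of_lt_of_le hJ2 (Nat.pow_le_pow_left h 2)
        have h2 : (j * A) ^ 2 ≤ (3 * k ^ 2) ^ 2 := by
          refine Nat.pow_le_pow_left ?_ 2
          calc j * A ≤ j * d := Nat.mul_le_mul_left _ hdA
            _ ≤ 3 * k ^ 2 := by omega
        have h3 : k * (9 * k ^ 3) < j ^ 2 * A ^ 2 := by
          calc k * (9 * k ^ 3) < j ^ 2 * (9 * k ^ 3) :=
                Nat.mul_lt_mul_of_pos_right h1 (by positivity)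
            _ ≤ j ^ 2 * A ^ 2 := Nat.mul_le_mul_left _ hA1.le
        have h5 : (j * A) ^ 2 = j ^ 2 * A ^ 2 := by ring
        have h6 : (3 * k ^ 2) ^ 2 = k * (9 * k ^ 3) := by ring
        omega
      have hjk : j ^ 2 ≤ k := le_trans (Nat.pow_le_pow_left hJ3 2) hJ1
      have hjk2 : 2 * j ≤ k + 1 := by nlinarith [hjk, h0]
      have hl : 3 * k ^ 2 ≤ j * d + (8 * k + 2 * k * j) := by
        rcases Nat.even_or_odd' j with ⟨q, hq | hq⟩
        · by_contra h
          push Not at h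
          refine hC (Or.inl ⟨q, hq, by omega, ?_⟩)
          obtain ⟨e, he⟩ : ∃ e, k = 1 + q + e := ⟨k - (1 + q), by omega⟩
          have e1 : k - 1 - q = e := by omega
          have e2 : 3 * k - q = 3 + 2 * q + 3 * e := by omega
          rw [e1, e2]
          rw [hq, he] at h
          have e3 : 3 * (1 + q + e) ^ 2 + (q * q + 6 * q + 5 + 5 * e) =
              e * (3 + 2 * q + 3 * e) + (8 * (1 + q + e) + 2 * (1 + q + e) * (2 * q)) := by ring
          have e4 : 2 * q * d + (8 * (1 + q + e) + 2 * (1 + q + e) * (2 * q)) <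
              e * (3 + 2 * q + 3 * e) + (8 * (1 + q + e) + 2 * (1 + q + e) * (2 * q)) := by
            rw [← e3]
            exact Nat.lt_add_right _ h
          exact (Nat.lt_of_add_lt_add_right e4).le
        · by_contra h
          push Not at h
          have hu3 : q ≤ k - 3 := by
            rcases Nat.lt_or_ge k 5 with h5 | h5
            · omega
            · omega
          refine hC (Or.inr ⟨q, hq, h4, hu3, ?_⟩)
          obtain ⟨e, he⟩ : ∃ e, k = 3 + q + e := ⟨k - (3 + q), by omega⟩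
          have e1 : k - 3 - q = e := by omega
          have e2 : 3 * k - q - 1 = 8 + 2 * q + 3 * e := by omega
          rw [e1, e2]
          rw [hq, he] at h
          have e3 : 3 * (3 + q + e) ^ 2 + (q * q + 4 * q + 3) =
              e * (8 + 2 * q + 3 * e) + (8 * (3 + q + e) + 2 * (3 + q + e) * (2 * q + 1)) := by ring
          have e4 : (2 * q + 1) * d + (8 * (3 + q + e) + 2 * (3 + q + e) * (2 * q + 1)) <
              e * (8 + 2 * q + 3 * e) + (8 * (3 + q + e) + 2 * (3 + q + e) * (2 * q + 1)) := by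
            rw [← e3]
            exact Nat.lt_add_right _ h
          exact (Nat.lt_of_add_lt_add_right e4).le
      have hXj := hX j
      have h1 : X j ≤ d := by
        rw [hXj]
        refine Nat.div_le_of_le_mul ?_
        omega
      have h2 : X j + 8 * k < d := hdI j ⟨h0, hJ3⟩ h1
      -- contradiction
      have h3 : (3 * k ^ 2 - (8 * k + 2 * k * j)) < j * (X j + 1) := by
        rw [hXj]
        exact Nat.lt_mul_div_succ _ h0
      have h4' : j * (X j + 8 * k + 1) ≤ j * d := Nat.mul_le_mul_left _ h2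
      have h5 : 6 * k ≤ j * (6 * k) := Nat.le_mul_of_pos_left _ h0
      have h6 : j * (X j + 8 * k + 1) = j * (X j + 1) + j * (6 * k) + 2 * k * j := by ring
      omega

end Pool.TRO
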