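import Pool.Agent.H49.TRN.All
import Pool.Agent.H49.FOS.All
import Pool.Agent.H49.TRO.CTZ
import Pool.Agent.H49.TRO.NME
import Pool.Agent.H20.TRO.COB
import Pool.Agent.H20.TRO.COC
import Pool.Agent.H20.TRO.COR
import Pool.Agent.H20.TRO.NMD
import Pool.Agent.H20.TRO.TRO
import Pool.Agent.H21.TRO.COA
import Pool.Agent.H21.TRO.NMC
import Pool.Agent.H3.TRO.ROD
import Pool.Agent.H3.TRO.RON
import Pool.Agent.H80.TRO.RCT
import Pool.Agent.H89.TRO.KI
import Pool.Agent.H89.TRO.LWR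
import Pool.Agent.H36.WOT.All

/-!
# TRO: assembly
-/

set_option autoImplicit false

namespace Pool.TRO

open MvPolynomial Pool.FOS Pool.TRN

theorem kia : KIAStmt := t_kia t_pel

theorem kib : KIBStmt := t_kib t_swp kia

theorem cor_all : CORStmt := t_cor t_ctz t_sbs (t_coa kia kib) (t_cob kia kib) (t_coc kia)

theorem tro_all : TROStmt :=
  t_tro t_sbs t_cut (t_upr t_cut t_sbs (t_stu t_pel t_cut t_sbs)) cor_all (t_rct t_pel t_cut t_sbs)
    (t_lwr t_pel t_cut t_sbs)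

theorem rod_all : RODStmt :=
  t_rod tro_all (t_vnt t_dif) (t_ong t_du1 t_du2) (t_ter t_jac t_dom) t_nmc

theorem ron_all : RONStmt := t_ron rod_all res_all t_mon t_nmd

theorem le_of_cnd (k d j : ℕ) (hk : 2 ≤ k) (hd : 1 ≤ d) (hkd : k ≤ d + 2) (h : Cnd k d j) :
    GenLe 3 k d (k ^ 2 - j) := by
  rcases h with ⟨q, rfl, h1, h2⟩ | ⟨u, rfl, h1, h2, h3⟩
  · exact (res_all k d hk hd).2.1 q hkd h1 h2
  · exact rod_all k d u h1 hd hkd h2 h3

theorem ge_cv (k d : ℕ) (hk : 2 ≤ k) (hd : 1 ≤ d) (t : ℕ) (ht : t < cv k d) : ¬ GenLe 3 k d t := by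
  refine (res_all k d hk hd).2.2.2 t (lt_of_le_of_lt (Nat.mul_le_mul_right _ ?_) (cv_lt k d))
  omega

theorem rk_cv (k d : ℕ) (hk : 2 ≤ k) (hd : 1 ≤ d) (h : GenLe 3 k d (cv k d)) :
    GenRk 3 k d (cv k d) := ⟨h, fun t ht => ge_cv k d hk hd t ht⟩

theorem within_one (k d : ℕ) (hk : 2 ≤ k) (hd : 1 ≤ d) :
    GenRk 3 k d (cv k d) ∨ GenRk 3 k d (cv k d + 1) := by
  have h3 := Pool.WOT.wot_all k d (cv k d) (by omega) hd (cv_ge k d)
  by_cases h : GenLe 3 k d (cv k d)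
  · exact Or.inl (rk_cv k d hk hd h)
  · refine Or.inr ⟨h3, fun t ht => ?_⟩
    rcases Nat.lt_or_ge t (cv k d) with h4 | h4
    · exact ge_cv k d hk hd t h4
    · obtain rfl : t = cv k d := by omega
      exact h

/-- If the bound is attained by the dimension count, it is the generic rank. -/
theorem exact_cv (k d s : ℕ) (hk : 2 ≤ k) (hd : 1 ≤ d) (h : GenLe 3 k d s) (hs : s ≤ cv k d) :
    GenRk 3 k d (cv k d) :=
  rk_cv k d hk hd (t_mon 3 k d s (cv k d) (by omega) hs h)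

theorem tro_main (k : ℕ) (hk : 3 ≤ k) :
    (∀ d, 1 ≤ d → GenRk 3 k d (cv k d) ∨ GenRk 3 k d (cv k d + 1)) ∧
    (∃ E : Finset ℕ, E.card ^ 2 ≤ 144 * k ^ 3 ∧ ∀ d, 1 ≤ d → d ∉ E → GenRk 3 k d (cv k d)) ∧
    (∀ d q : ℕ, 1 ≤ d → k ≤ d + 2 → q < k → 2 * q * d ≤ (k - 1 - q) * (3 * k - q) →
      k ^ 2 - 2 * q ≤ cv k d → GenRk 3 k d (cv k d)) ∧
    (∀ d u : ℕ, 1 ≤ d → k ≤ d + 2 → u + 4 ≤ k → (2 * u + 1) * d ≤ (k - 3 - u) * (3 * k - u - 1) →
      k ^ 2 - (2 * u + 1) ≤ cv k d → GenRk 3 k d (cv k d)) ∧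
    (∀ d, 1 ≤ d → d ≤ (k - 3) * (3 * k - 1) → GenLe 3 k d (k ^ 2 - 1)) := by
  refine ⟨fun d hd => within_one k d (by omega) hd, ?_, ?_, ?_, ?_⟩
  · obtain ⟨E, hE, hE2⟩ := nme k hk
    refine ⟨E, hE, fun d hd hdE => ?_⟩
    obtain ⟨h1, h2⟩ := hE2 d hd hdE
    have h3 := le_of_cnd k d _ (by omega) hd h1 h2
    have h4 : k ^ 2 - (k ^ 2 - cv k d) = cv k d := by
      have := cv_le k d (by omega)
      omega
    rw [h4] at h3
    exact rk_cv k d (by omega) hd h3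
  · intro d q h1 h2 h3 h4 h5
    exact exact_cv k d _ (by omega) h1 ((res_all k d (by omega) h1).2.1 q h2 h3 h4) h5
  · intro d u h1 h2 h3 h4 h5
    exact exact_cv k d _ (by omega) h1 (rod_all k d u (by omega) h1 h2 (by omega) h4) h5
  · intro d hd h
    rcases Nat.lt_or_ge k 4 with h4 | h4
    · obtain rfl : k = 3 := by omega
      simp at h
      omega
    rcases Nat.lt_or_ge (d + 2) k with h1 | h1
    · refine (fos_all 3 k d (by norm_num) (by omega) hd).2.2 (by norm_num) ?_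
      have h2 : 2 * (d + 1) ≤ 2 * k := by omega
      refine h2.trans ?_
      obtain ⟨c, rfl⟩ : ∃ c, k = c + 4 := ⟨k - 4, by omega⟩
      have e1 : c + 4 - 1 = c + 3 := by omega
      rw [e1]
      norm_num
      nlinarith
    · exact rod_all k d 0 h4 hd h1 (by omega) (by simpa using h)

end Pool.TRO
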